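import Pool.Agent.K3h44.RQ.Stm

set_option autoImplicit false

/-!
# Project RQ (helper44), brick LAMM (helper76)

The Stickelberger relation modulo the square of `1 - ζ`, `ζ` a primitive `p`-th root of unity in
the `m`-th cyclotomic field.
-/

namespace Pool.Agent.K3h76.RQ

open NumberField IsDedekindDomain HeightOneSpectrum
open Pool.Agent.K3h44.RQ
open WithZero (exp)

section abs

variable {F : Type} [Field F] (v : Valuation F (WithZero (Multiplicative ℤ)))

/-- order at least `n` -/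
def Od (n : ℤ) (x : F) : Prop := v x ≤ exp (-n)

variable {v}

lemma Od.add {n : ℤ} {x y : F} (hx : Od v n x) (hy : Od v n y) : Od v n (x + y) :=
  v.map_add_le hx hy

lemma Od.neg {n : ℤ} {x : F} (hx : Od v n x) : Od v n (-x) := by
  unfold Od at *
  rwa [Valuation.map_neg]

lemma Od.sub {n : ℤ} {x y : F} (hx : Od v n x) (hy : Od v n y) : Od v n (x - y) := by
  rw [sub_eq_add_neg]
  exact hx.add hy.neg

lemma Od.zero {n : ℤ} : Od v n 0 := by
  unfold Od
  rw [map_zero]
  exact zero_le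

lemma Od.sum {ι : Type*} (T : Finset ι) {n : ℤ} {a : ι → F} (h : ∀ t ∈ T, Od v n (a t)) :
    Od v n (∑ t ∈ T, a t) := by
  classical
  induction T using Finset.induction_on with
  | empty => simpa using Od.zero
  | insert t T ht ih =>
    rw [Finset.sum_insert ht]
    exact (h t (Finset.mem_insert_self _ _)).add
      (ih fun s hs => h s (Finset.mem_insert_of_mem hs))

lemma Od.mul {m n : ℤ} {x y : F} (hx : Od v m x) (hy : Od v n y) : Od v (m + n) (x * y) := by
  unfold Od at *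
  rw [map_mul, neg_add, WithZero.exp_add]
  exact mul_le_mul' hx hy

lemma Od.mono {m n : ℤ} (h : m ≤ n) {x : F} (hx : Od v n x) : Od v m x := by
  unfold Od at *
  refine hx.trans ?_
  rw [WithZero.exp_le_exp]
  omega

lemma Od.one : Od v 0 (1 : F) := by
  unfold Od
  rw [map_one, neg_zero, WithZero.exp_zero]

lemma Od.nat (n : ℕ) : Od v 0 (n : F) := by
  induction n with
  | zero => simpa using Od.zero
  | succ n ih =>
    push_cast
    exact ih.add Od.one

lemma Od.of_lt {x : F} (h : v x < 1) : Od v 1 x := by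
  unfold Od
  by_cases h0 : v x = 0
  · rw [h0]
    exact zero_le
  · obtain ⟨k, hk⟩ : ∃ k : ℤ, v x = exp k := ⟨WithZero.log (v x), (WithZero.exp_log h0).symm⟩
    rw [hk, ← WithZero.exp_zero, WithZero.exp_lt_exp] at h
    rw [hk, WithZero.exp_le_exp]
    omega

lemma Od.lt {x : F} (h : Od v 1 x) : v x < 1 := by
  refine lt_of_le_of_lt h ?_
  rw [← WithZero.exp_zero, WithZero.exp_lt_exp]
  omega

lemma Od.pow {n : ℤ} {x : F} (hx : Od v n x) (k : ℕ) : Od v (k * n) (x ^ k) := by
  induction k with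
  | zero => simpa using Od.one
  | succ k ih =>
    rw [pow_succ]
    have := ih.mul hx
    push_cast
    rwa [add_mul, one_mul]

/-- linear approximation of a power -/
lemma lin {ζ : F} (h : Od v 1 (1 - ζ)) (r : ℕ) : Od v 2 (1 - ζ ^ r - r * (1 - ζ)) := by
  induction r with
  | zero => simpa using Od.zero
  | succ r ih =>
    have h1 : Od v 1 (1 - ζ ^ r) := by
      have h2 : 1 - ζ ^ r = (1 - ζ ^ r - r * (1 - ζ)) + r * (1 - ζ) := by ring
      rw [h2]
      refine (ih.mono (by norm_num)).add ?_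
      have := (Od.nat (v := v) r).mul h
      rwa [zero_add] at this
    have h3 : 1 - ζ ^ (r + 1) - ((r + 1 : ℕ) : F) * (1 - ζ) =
        (1 - ζ ^ r - r * (1 - ζ)) - (1 - ζ ^ r) * (1 - ζ) := by
      push_cast
      ring
    rw [h3]
    exact ih.sub (h1.mul h)

/-- linear approximation of a product -/
lemma prodlin {ι : Type*} (T : Finset ι) {a : ι → F} (h : ∀ t ∈ T, Od v 1 (a t)) :
    Od v 2 (∏ t ∈ T, (1 - a t) - (1 - ∑ t ∈ T, a t)) := by
  classical
  induction T using Finset.induction_on with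
  | empty => simpa using Od.zero
  | insert t T ht ih =>
    have ih' := ih fun s hs => h s (Finset.mem_insert_of_mem hs)
    have h1 := h t (Finset.mem_insert_self _ _)
    have h2 : Od v 1 (∑ s ∈ T, a s) := Od.sum T fun s hs => h s (Finset.mem_insert_of_mem hs)
    rw [Finset.prod_insert ht, Finset.sum_insert ht]
    have h3 : (1 - a t) * ∏ s ∈ T, (1 - a s) - (1 - (a t + ∑ s ∈ T, a s)) =
        (1 - a t) * (∏ s ∈ T, (1 - a s) - (1 - ∑ s ∈ T, a s)) + a t * ∑ s ∈ T, a s := by
      ring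
    rw [h3]
    refine Od.add ?_ (h1.mul h2)
    have h4 := (Od.one.sub (h1.mono (by norm_num : (0 : ℤ) ≤ 1))).mul ih'
    rwa [zero_add] at h4

/-- a `p`-th power congruent to `1` modulo `λ` is congruent to `1` modulo `λ ^ 2` -/
lemma powlin {p : ℕ} (hp : p.Prime) {g : F} (hg : v g = 1) (h1 : Od v 1 (g ^ p - 1))
    (h2 : Od v 2 (p : F)) : Od v 2 (g ^ p - 1) := by
  have hg0 : g ∈ v.integer := by
    rw [Valuation.mem_integer_iff, hg]
  obtain ⟨r, hr⟩ := exists_add_pow_prime_eq hp ((⟨g, hg0⟩ : v.integer) - 1) 1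
  have hr' : g ^ p - 1 = (g - 1) ^ p + p * (g - 1) * (r : F) := by
    have h3 := congrArg (fun y : v.integer => (y : F)) hr
    simp only [sub_add_cancel, one_pow, mul_one] at h3
    push_cast at h3
    rw [h3]
    ring
  have hu : Od v 0 (g - 1) := by
    refine Od.sub ?_ Od.one
    unfold Od
    rw [hg, neg_zero, WithZero.exp_zero]
  have hr0 : Od v 0 (r : F) := by
    unfold Od
    rw [neg_zero, WithZero.exp_zero]
    exact r.2
  have h4 : Od v 2 (p * (g - 1) * (r : F)) := by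
    have := (h2.mul hu).mul hr0
    simpa using this
  have h5 : Od v 1 ((g - 1) ^ p) := by
    have h6 : (g - 1) ^ p = (g ^ p - 1) - p * (g - 1) * (r : F) := by
      rw [hr']; ring
    rw [h6]
    exact h1.sub (h4.mono (by norm_num))
  have h7 : v (g - 1) < 1 := by
    by_contra hcon
    rw [not_lt] at hcon
    have h8 := h5.lt
    rw [map_pow] at h8
    exact absurd (one_le_pow_of_one_le' hcon p) (not_le.2 h8)
  have h9 : Od v 2 ((g - 1) ^ p) := by
    have h10 := (Od.of_lt h7).pow p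
    refine h10.mono ?_
    have := hp.two_le
    omega
  rw [hr']
  exact h9.add h4

/-- the abstract form of the statement -/
lemma main_abs {p : ℕ} (hp : p.Prime) {ζ : F} (hz : v (1 - ζ) = exp (-1 : ℤ))
    (h2 : Od v 2 (p : F)) {ι : Type*} (T : Finset ι) (r : ι → ℕ) (w : ι → F)
    (hw : ∀ t ∈ T, Od v 0 (w t)) {g : F} (i : ℕ)
    (hrel : ∏ t ∈ T, (1 - (1 - ζ ^ r t) * w t) = ζ ^ i * g ^ p) :
    v (∑ t ∈ T, (r t : F) * w t - (i : F)) < 1 := by
  have hl : Od v 1 (1 - ζ) := hz.le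
  have hz1 : v ζ = 1 := by
    have h3 : ζ = 1 - (1 - ζ) := by ring
    rw [h3]
    exact Valuation.map_one_sub_of_lt _ hl.lt
  have hone : ∀ s : ℕ, Od v 1 (1 - ζ ^ s) := by
    intro s
    have h3 : 1 - ζ ^ s = (1 - ζ ^ s - s * (1 - ζ)) + s * (1 - ζ) := by ring
    rw [h3]
    refine ((lin hl s).mono (by norm_num)).add ?_
    have := (Od.nat (v := v) s).mul hl
    rwa [zero_add] at this
  have ha : ∀ t ∈ T, Od v 1 ((1 - ζ ^ r t) * w t) := by
    intro t ht
    have := (hone (r t)).mul (hw t ht)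
    rwa [add_zero] at this
  have hA := prodlin T ha
  have hB : Od v 2 (∑ t ∈ T, (1 - ζ ^ r t - r t * (1 - ζ)) * w t) := by
    refine Od.sum T fun t ht => ?_
    have := (lin hl (r t)).mul (hw t ht)
    rwa [add_zero] at this
  have hC := lin hl i
  have hsum : ∑ t ∈ T, (1 - ζ ^ r t - r t * (1 - ζ)) * w t =
      ∑ t ∈ T, (1 - ζ ^ r t) * w t - (1 - ζ) * ∑ t ∈ T, (r t : F) * w t := by
    rw [Finset.mul_sum, ← Finset.sum_sub_distrib]
    refine Finset.sum_congr rfl fun t _ => ?_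
    ring
  rw [hrel] at hA
  have hD : Od v 1 (∑ t ∈ T, (1 - ζ ^ r t) * w t) := Od.sum T ha
  -- the product is congruent to `1`
  have hE : Od v 1 (ζ ^ i * g ^ p - 1) := by
    have h3 : ζ ^ i * g ^ p - 1 = (ζ ^ i * g ^ p - (1 - ∑ t ∈ T, (1 - ζ ^ r t) * w t)) -
        ∑ t ∈ T, (1 - ζ ^ r t) * w t := by ring
    rw [h3]
    exact (hA.mono (by norm_num)).sub hD
  have hv : v (ζ ^ i * g ^ p) = 1 := by
    have h3 : ζ ^ i * g ^ p = 1 + (ζ ^ i * g ^ p - 1) := by ring
    rw [h3]
    exact Valuation.map_one_add_of_lt _ hE.lt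
  have hg : v g = 1 := by
    rw [map_mul, map_pow, map_pow, hz1, one_pow, one_mul] at hv
    by_contra hne
    rcases lt_or_gt_of_ne hne with h | h
    · exact absurd hv (pow_lt_one₀ zero_le h hp.ne_zero).ne
    · exact absurd hv (one_lt_pow₀ h hp.ne_zero).ne'
  have hdiv : ∀ (n : ℤ) (x : F), Od v n (ζ ^ i * x) ↔ Od v n x := by
    intro n x
    unfold Od
    rw [map_mul, map_pow, hz1, one_pow, one_mul]
  have hG1 : Od v 1 (g ^ p - 1) := by
    rw [← hdiv]
    have h3 : ζ ^ i * (g ^ p - 1) = (ζ ^ i * g ^ p - 1) + (1 - ζ ^ i) := by ring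
    rw [h3]
    exact hE.add (hone i)
  have hG2 := powlin hp hg hG1 h2
  rw [← hdiv] at hG2
  have hfin : Od v 2 ((1 - ζ) * (∑ t ∈ T, (r t : F) * w t - (i : F))) := by
    have h3 : (1 - ζ) * (∑ t ∈ T, (r t : F) * w t - (i : F)) =
        (ζ ^ i * g ^ p - (1 - ∑ t ∈ T, (1 - ζ ^ r t) * w t)) -
        (∑ t ∈ T, (1 - ζ ^ r t) * w t - (1 - ζ) * ∑ t ∈ T, (r t : F) * w t) +
        (1 - ζ ^ i - i * (1 - ζ)) - ζ ^ i * (g ^ p - 1) := by ring
    rw [h3, ← hsum]
    exact ((hA.sub hB).add hC).sub hG2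
  have hlast : Od v 1 (∑ t ∈ T, (r t : F) * w t - (i : F)) := by
    unfold Od at hfin ⊢
    rw [map_mul, hz] at hfin
    have h3 : exp (-2 : ℤ) = exp (-1 : ℤ) * exp (-1 : ℤ) := by
      rw [← WithZero.exp_add]
      norm_num
    rw [h3] at hfin
    exact (mul_le_mul_iff_right₀ (WithZero.exp_pos)).1 hfin
  exact hlast.lt

end abs

section

variable {m : ℕ} [NeZero m] {F : Type} [Field F] [NumberField F]

omit [NeZero m] in
lemma mem_actM (c : CycM m F) (t : (ZMod m)ˣ) (P : HeightOneSpectrum (𝓞 F)) (y : 𝓞 F) :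
    y ∈ (actM c t P).asIdeal ↔ rsM c t y ∈ P.asIdeal := Iff.rfl

omit [NeZero m] in
lemma actM_pow (c : CycM m F) (t : (ZMod m)ˣ) (P : HeightOneSpectrum (𝓞 F)) (n : ℕ) (y : 𝓞 F) :
    y ∈ (actM c t P).asIdeal ^ n ↔ rsM c t y ∈ P.asIdeal ^ n := by
  have h1 : (actM c t P).asIdeal = P.asIdeal.map (rsM c t).symm := by
    rw [Ideal.map_symm]; rfl
  rw [h1, ← Ideal.map_pow, Ideal.map_symm, Ideal.mem_comap]

/-- an element of `ℤᵐ⁰` at most `1` is determined by its lower bounds -/
lemma val_extM {a b : WithZero (Multiplicative ℤ)} (ha : a ≤ 1) (hb : b ≤ 1)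
    (h : ∀ n : ℕ, a ≤ exp (-(n : ℤ)) ↔ b ≤ exp (-(n : ℤ))) : a = b := by
  have key : ∀ {a b : WithZero (Multiplicative ℤ)}, a ≤ 1 → b ≤ 1 →
      (∀ n : ℕ, a ≤ exp (-(n : ℤ)) ↔ b ≤ exp (-(n : ℤ))) → a ≤ b := by
    intro a b ha hb h
    by_cases hb0 : b = 0
    · subst hb0
      by_contra hlt
      have ha0 : a ≠ 0 := fun h0 => hlt (by rw [h0])
      obtain ⟨k, rfl⟩ : ∃ k : ℤ, a = exp k := ⟨WithZero.log a, (WithZero.exp_log ha0).symm⟩
      have h1 := (h (k.natAbs + 1)).mpr zero_le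
      rw [WithZero.exp_le_exp] at h1
      have := Int.natCast_natAbs k
      push_cast at h1
      have h3 := neg_abs_le k
      linarith
    · obtain ⟨k, rfl⟩ : ∃ k : ℤ, b = exp k := ⟨WithZero.log b, (WithZero.exp_log hb0).symm⟩
      have hk : k ≤ 0 := by
        rw [← WithZero.exp_zero, WithZero.exp_le_exp] at hb
        exact hb
      obtain ⟨n, rfl⟩ : ∃ n : ℕ, k = -(n : ℤ) := ⟨k.natAbs, by omega⟩
      exact (h n).mpr le_rfl
  exact le_antisymm (key ha hb h) (key hb ha fun n => (h n).symm)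

omit [NeZero m] in
lemma intVal_actM (c : CycM m F) (t : (ZMod m)ˣ) (P : HeightOneSpectrum (𝓞 F)) (y : 𝓞 F) :
    (actM c t P).intValuation y = P.intValuation (rsM c t y) := by
  apply val_extM (intValuation_le_one _ _) (intValuation_le_one _ _)
  intro n
  rw [intValuation_le_pow_iff_mem, intValuation_le_pow_iff_mem, actM_pow]

/-- the valuation at the preimage of `P` -/
lemma val_actM (c : CycM m F) (t : (ZMod m)ˣ) (P : HeightOneSpectrum (𝓞 F)) (y : F) :
    (actM c t P).valuation F y = P.valuation F (c.σ t y) := by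
  obtain ⟨a, b, hb, rfl⟩ := IsFractionRing.div_surjective (A := 𝓞 F) y
  rw [map_div₀, map_div₀, map_div₀]
  have h1 : ∀ a : 𝓞 F, (actM c t P).valuation F (algebraMap (𝓞 F) F a) =
      P.valuation F (c.σ t (algebraMap (𝓞 F) F a)) := by
    intro a
    have h2 : c.σ t (algebraMap (𝓞 F) F a) = algebraMap (𝓞 F) F (rsM c t a) := rfl
    rw [h2, valuation_of_algebraMap, valuation_of_algebraMap, intVal_actM]
  rw [h1, h1]

end

theorem t_LAMM : S_LAMM := by
  intro m _ p k hp hp2 hm hpk F _ _ c H w hw g hg i hrel P hP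
  have hz := c.unif p k hp hm hpk P hP
  have hprim : IsPrimitiveRoot (c.z ^ k) p := by
    refine c.prim.pow (NeZero.pos m) ?_
    rw [hm, mul_comm]
  -- the valuation of `p`
  have hpv : Od (P.valuation F) 2 (p : F) := by
    obtain ⟨n, hn⟩ : ∃ n, p = n + 1 := ⟨p - 1, by have := hp.pos; omega⟩
    have hn2 : 2 ≤ n := by
      have := hp.two_le
      omega
    have h1 := (hn ▸ hprim).prod_one_sub_pow_eq_order
    have h2 : (p : F) = ∏ j ∈ Finset.range n, (1 - (c.z ^ k) ^ (j + 1)) := by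
      rw [h1, hn]
      push_cast
      ring
    have hl : Od (P.valuation F) 1 (1 - c.z ^ k) := hz.le
    have h3 : ∀ s : ℕ, Od (P.valuation F) 1 (1 - (c.z ^ k) ^ s) := by
      intro s
      have h3 : 1 - (c.z ^ k) ^ s = (1 - (c.z ^ k) ^ s - s * (1 - c.z ^ k)) +
        s * (1 - c.z ^ k) := by ring
      rw [h3]
      refine ((lin hl s).mono (by norm_num)).add ?_
      have := (Od.nat (v := P.valuation F) s).mul hl
      rwa [zero_add] at this
    have h4 : ∀ N : ℕ, Od (P.valuation F) N (∏ j ∈ Finset.range N, (1 - (c.z ^ k) ^ (j + 1))) := by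
      intro N
      induction N with
      | zero => simpa using Od.one
      | succ N ih =>
        rw [Finset.prod_range_succ]
        push_cast
        exact ih.mul (h3 _)
    rw [h2]
    exact (h4 n).mono (by exact_mod_cast hn2)
  have hw' : ∀ t ∈ H, Od (P.valuation F) 0 (c.σ t⁻¹ w) := by
    intro t ht
    unfold Od
    rw [neg_zero, WithZero.exp_zero, ← val_actM]
    apply hw
    rw [mem_actM, map_natCast]
    exact hP
  refine main_abs hp hz hpv H (fun t => ((t⁻¹ : (ZMod m)ˣ) : ZMod m).val)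
    (fun t => c.σ t⁻¹ w) hw' i ?_ (g := g)
  rw [← hrel]
  unfold thM
  refine Finset.prod_congr rfl fun t _ => ?_
  rw [map_sub, map_mul, map_sub, map_one, map_pow, c.σ_z, ← pow_mul, ← pow_mul, mul_comm k]

end Pool.Agent.K3h76.RQ
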