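import Pool.Agent.K3h44.RQ.Stm3
import Pool.Agent.K3h85.RQ.FLO

/-!
# Project RQ3, brick FLJ (adapted from `Pool.Agent.K3h85.RQ.FLO`)
-/

set_option autoImplicit false

namespace Pool.Agent.K3h76.RQ

open Pool.Agent.K3h44.RQ

theorem t_FLJ : S_FLJ := by
  intro d p j hd _ hp hp2 _ hT
  have hD := Pool.Agent.K3h85.RQ.dsc_ge hd
  have hp3 : 3 ≤ p := by
    have := hp.two_le
    omega
  set m : ℕ := p * dsc d with hm
  have hDm : dsc d < m := by
    rw [hm]
    nlinarith
  let G : ℕ → ZMod p := fun a => ∑ t ∈ (Finset.range m).filter (fun t => t.Coprime m),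
    ((chi d t : ℤ) : ZMod p) * ((a * t / m : ℕ) : ZMod p) * ((t : ZMod p)⁻¹) ^ j
  let S : ℕ → ZMod p := fun a => ∑ t ∈ (Finset.range m).filter (fun t => t.Coprime m ∧
      m < t + (a * t) % m), ((chi d t : ℤ) : ZMod p) * ((t : ZMod p)⁻¹) ^ j
  have hS : ∀ a < dsc d, S a = G (a + 1) - G a := by
    intro a ha
    simp only [S, G]
    rw [← Finset.sum_sub_distrib, ← Finset.filter_filter, Finset.sum_filter]
    refine Finset.sum_congr rfl fun t ht => ?_
    rw [Finset.mem_filter, Finset.mem_range] at ht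
    rw [Pool.Agent.K3h85.RQ.carry (by omega) ht.1 ht.2]
    split_ifs
    · push_cast
      ring
    · push_cast
      ring
  have h1 : ∑ a ∈ Finset.range (dsc d), S a = TJ d p j := by
    rw [Finset.sum_congr rfl fun a ha => hS a (Finset.mem_range.mp ha), Finset.sum_range_sub]
    have h2 : G 0 = 0 := by
      simp only [G]
      exact Finset.sum_eq_zero fun t _ => by simp
    rw [h2, sub_zero]
    unfold TJ
    refine Finset.sum_congr rfl fun t _ => ?_
    have h3 : dsc d * t / m = t / p := by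
      rw [hm, mul_comm p, Nat.mul_div_mul_left _ _ (by omega)]
    rw [h3]
  rw [← h1] at hT
  obtain ⟨a, ha, h2⟩ := Finset.exists_ne_zero_of_sum_ne_zero hT
  rw [Finset.mem_range] at ha
  refine ⟨a, ?_, by omega, h2⟩
  by_contra h0
  apply h2
  have h3 : a = 0 := by omega
  simp only [S]
  rw [h3]
  refine Finset.sum_eq_zero fun t ht => ?_
  rw [Finset.mem_filter, Finset.mem_range] at ht
  exfalso
  have h4 := ht.2.2
  rw [zero_mul, Nat.zero_mod] at h4
  omega

end Pool.Agent.K3h76.RQ
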